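import Pool.Agent.W223.PL.Stms

/-!
# Final summation (part `StmtPFIN` of project PL)
-/

namespace Pool.Agent.W461.PL

open Pool.Agent.W223.PL

/-- Reduction to a coprime pair. -/
theorem reduce (d x y : ℤ) (hy : 1 ≤ y) (hne : x ^ 2 ≠ d * y ^ 2) :
    ∃ x' y' N : ℤ, 0 ≤ x' ∧ 1 ≤ y' ∧ y' ≤ y ∧ IsCoprime x' y' ∧ x' ^ 2 - d * y' ^ 2 = N ∧
      N ≠ 0 ∧ |N| ≤ |x ^ 2 - d * y ^ 2| := by
  have hg : 0 < Int.gcd x y := Int.gcd_pos_of_ne_zero_right x (by omega)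
  obtain ⟨x₁, y₁, hc, hx, hy'⟩ := Int.exists_gcd_one hg
  obtain ⟨g, hgg⟩ : ∃ g : ℤ, g = (Int.gcd x y : ℤ) := ⟨_, rfl⟩
  have hg1 : 1 ≤ g := by rw [hgg]; exact_mod_cast hg
  rw [← hgg] at hx hy'
  have hy1 : 1 ≤ y₁ := by
    by_contra h
    have h1 : y₁ ≤ 0 := by omega
    nlinarith
  have hN : x ^ 2 - d * y ^ 2 = g ^ 2 * (x₁ ^ 2 - d * y₁ ^ 2) := by
    rw [hx, hy']; ring
  refine ⟨|x₁|, y₁, x₁ ^ 2 - d * y₁ ^ 2, abs_nonneg _, hy1, ?_, ?_, by rw [sq_abs], ?_, ?_⟩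
  · rw [hy']; nlinarith
  · rw [Int.isCoprime_iff_gcd_eq_one]
    rw [← hc]
    simp only [Int.gcd, Int.natAbs_abs]
  · intro h
    rw [h, mul_zero] at hN
    exact hne (by linarith)
  · rw [hN, abs_mul]
    have h1 : 1 ≤ |g ^ 2| := by
      rw [abs_of_nonneg (sq_nonneg g)]; nlinarith
    nlinarith [abs_nonneg (x₁ ^ 2 - d * y₁ ^ 2)]

theorem add_one_le {c X e : ℝ} (hX : 1 ≤ X) (he : 0 ≤ e) : c * X ^ e + 1 ≤ (c + 1) * X ^ e := by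
  have := Real.one_le_rpow hX he
  nlinarith

/-- The main count. -/
theorem main (A : ℕ) (hA : 1 ≤ A) (m : ℕ) (hm : m = 2 * (4 * A + 1) ^ 2) (D₀ Cc : ℝ)
    (hD₀ : 1 ≤ D₀) (hCc : 1 ≤ Cc)
    (hI : ∀ (D V : ℝ) (N : ℤ) (𝒟 : Finset ℤ), D₀ ≤ D → 1 ≤ V → V ≤ D ^ (2 * A) → N ≠ 0 →
      |(N : ℝ)| ≤ D ^ ((1 : ℝ) / 8) → (∀ d ∈ 𝒟, D ≤ d ∧ (d : ℝ) ≤ 2 * D) →
      (∀ d ∈ 𝒟, ∀ d' ∈ 𝒟, |(d : ℝ) - d'| ≤ D ^ (1 / (8 * (m : ℝ)))) →
      (∀ d ∈ 𝒟, ∃ x y : ℤ, 0 ≤ x ∧ V ≤ y ∧ (y : ℝ) < 2 * V ∧ IsCoprime x y ∧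
        x ^ 2 - d * y ^ 2 = N) →
      (𝒟.card : ℝ) ≤ Cc * D ^ (1 / (16 * (m : ℝ)) + 1 / (128 * m)))
    (q : ℝ) (hq : q = 1 / (128 * (m : ℝ))) (X : ℝ) (hX : D₀ ^ 2 ≤ X) (S : Finset ℤ)
    (hS : ∀ d ∈ S, 2 * X ^ ((1 : ℝ) / 2) < d ∧ (d : ℝ) ≤ X ∧ ∃ x y : ℤ, 1 ≤ y ∧ (y : ℝ) ≤ X ^ A ∧
      x ^ 2 ≠ d * y ^ 2 ∧ |((x ^ 2 - d * y ^ 2 : ℤ) : ℝ)| ≤ X ^ (2 * q)) :
    (S.card : ℝ) ≤ (Cc * (2 / (q * Real.log 2) + 1) * (A * (2 / (q * Real.log 2)) + 1) * 3 * 3) *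
      X ^ (1 - 4 * q) := by
  have hm1 : 1 ≤ (m : ℝ) := by
    rw [hm]; push_cast
    have : (0 : ℝ) ≤ A := Nat.cast_nonneg A
    nlinarith
  have hq0 : 0 < q := by rw [hq]; positivity
  have hq1 : q ≤ 1 / 128 := by
    rw [hq]
    apply one_div_le_one_div_of_le (by norm_num)
    linarith
  have e16 : 1 / (8 * (m : ℝ)) = 16 * q := by rw [hq]; field_simp; norm_num
  have e9 : 1 / (16 * (m : ℝ)) + 1 / (128 * m) = 9 * q := by rw [hq]; field_simp; norm_num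
  rw [e16, e9] at hI
  have hX1 : 1 ≤ X := by nlinarith
  have hX0 : 0 < X := by linarith
  have hA1 : (1 : ℝ) ≤ A := by exact_mod_cast hA
  have hl2 : 0 < Real.log 2 := Real.log_pos (by norm_num)
  obtain ⟨c, hc⟩ : ∃ c : ℝ, c = 2 / (q * Real.log 2) := ⟨_, rfl⟩
  have hc0 : 0 < c := by rw [hc]; positivity
  have hlog : Real.log X ≤ X ^ (q / 2) / (q / 2) := Real.log_le_rpow_div hX0.le (by positivity)
  have hlog' : Real.log X ≤ c * X ^ (q / 2) * Real.log 2 := by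
    rw [hc]
    calc Real.log X ≤ X ^ (q / 2) / (q / 2) := hlog
      _ = 2 / (q * Real.log 2) * X ^ (q / 2) * Real.log 2 := by field_simp
  -- choose the pairs
  have hch : ∀ d ∈ S, ∃ x y N : ℤ, 0 ≤ x ∧ 1 ≤ y ∧ (y : ℝ) ≤ X ^ A ∧ IsCoprime x y ∧
      x ^ 2 - d * y ^ 2 = N ∧ N ≠ 0 ∧ |(N : ℝ)| ≤ X ^ (2 * q) := by
    intro d hd
    obtain ⟨-, -, x, y, hy, hyA, hne, hN⟩ := hS d hd
    obtain ⟨x', y', N, h1, h2, h3, h4, h5, h6, h7⟩ := reduce d x y hy hne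
    refine ⟨x', y', N, h1, h2, ?_, h4, h5, h6, ?_⟩
    · exact le_trans (by exact_mod_cast h3) hyA
    · refine le_trans ?_ hN
      exact_mod_cast h7
  choose! x y N hx hy hyA hcop hN hN0 hNX using hch
  -- the map
  let f : ℤ → ℕ × ℕ × ℤ × ℤ := fun d => (Nat.log 2 d.toNat, Nat.log 2 (y d).toNat, N d,
    ⌊(d : ℝ) / ((2 : ℝ) ^ (Nat.log 2 d.toNat)) ^ (16 * q)⌋)
  have hlogb : ∀ n : ℤ, 1 ≤ n → (2 : ℝ) ^ (Nat.log 2 n.toNat) ≤ n ∧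
      (n : ℝ) < 2 * 2 ^ (Nat.log 2 n.toNat) := by
    intro n hn
    obtain ⟨k, rfl⟩ : ∃ k : ℕ, n = k := ⟨n.toNat, by omega⟩
    have hk : k ≠ 0 := by omega
    rw [Int.toNat_natCast]
    constructor
    · have := Nat.pow_log_le_self 2 hk
      exact_mod_cast this
    · have := Nat.lt_pow_succ_log_self (b := 2) (by norm_num) k
      rw [Nat.pow_succ] at this
      have h2 : (k : ℝ) < 2 ^ (Nat.log 2 k) * 2 := by exact_mod_cast this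
      rw [Int.cast_natCast]
      linarith
  have hd1 : ∀ d ∈ S, 1 ≤ d := by
    intro d hd
    have h1 := (hS d hd).1
    have h2 : (1 : ℝ) ≤ X ^ ((1 : ℝ) / 2) := Real.one_le_rpow hX1 (by norm_num)
    have h3 : (1 : ℝ) ≤ (d : ℝ) := by linarith
    exact_mod_cast h3
  -- the fibres
  have hfib : ∀ a ∈ S.image f, (S.filter fun d => f d = a).card ≤ ⌊Cc * X ^ (9 * q)⌋₊ := by
    intro a ha
    rw [Finset.mem_image] at ha
    obtain ⟨d₁, hd₁, rfl⟩ := ha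
    obtain ⟨i, hi⟩ : ∃ i : ℕ, i = Nat.log 2 d₁.toNat := ⟨_, rfl⟩
    obtain ⟨j, hj⟩ : ∃ j : ℕ, j = Nat.log 2 (y d₁).toNat := ⟨_, rfl⟩
    obtain ⟨hS1, hS2, -⟩ := hS d₁ hd₁
    have hD := hlogb d₁ (hd1 d₁ hd₁)
    rw [← hi] at hD
    have hV := hlogb (y d₁) (hy d₁ hd₁)
    rw [← hj] at hV
    have hDX : X ^ ((1 : ℝ) / 2) ≤ (2 : ℝ) ^ i := by linarith [hD.2]
    have hDX2 : (2 : ℝ) ^ i ≤ X := by linarith [hD.1]
    have hDp : (0 : ℝ) < 2 ^ i := by positivity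
    have hD1 : (1 : ℝ) ≤ 2 ^ i := one_le_pow₀ (by norm_num)
    have hmem : ∀ d ∈ S.filter (fun d => f d = f d₁), d ∈ S ∧ Nat.log 2 d.toNat = i ∧
        Nat.log 2 (y d).toNat = j ∧ N d = N d₁ ∧
        ⌊(d : ℝ) / ((2 : ℝ) ^ i) ^ (16 * q)⌋ = ⌊(d₁ : ℝ) / ((2 : ℝ) ^ i) ^ (16 * q)⌋ := by
      intro d hd
      rw [Finset.mem_filter] at hd
      obtain ⟨h1, h2⟩ := hd
      simp only [f, Prod.mk.injEq] at h2
      obtain ⟨h3, h4, h5, h6⟩ := h2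
      rw [← hi] at h3 h6
      rw [h3] at h6
      exact ⟨h1, h3, by rw [hj]; exact h4, h5, h6⟩
    have key := hI ((2 : ℝ) ^ i) ((2 : ℝ) ^ j) (N d₁) (S.filter fun d => f d = f d₁) ?_ ?_ ?_ ?_ ?_
      ?_ ?_ ?_
    · apply Nat.le_floor
      refine le_trans key ?_
      apply mul_le_mul_of_nonneg_left _ (by linarith)
      exact Real.rpow_le_rpow hDp.le hDX2 (by positivity)
    · refine le_trans ?_ hDX
      rw [← Real.sqrt_eq_rpow]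
      exact Real.le_sqrt_of_sq_le hX
    · exact one_le_pow₀ (by norm_num)
    · refine le_trans hV.1 (le_trans (hyA d₁ hd₁) ?_)
      rw [pow_mul]
      apply pow_le_pow_left₀ hX0.le
      rw [← Real.sqrt_eq_rpow] at hDX
      calc X = √X ^ 2 := (Real.sq_sqrt hX0.le).symm
        _ ≤ ((2 : ℝ) ^ i) ^ 2 := pow_le_pow_left₀ (Real.sqrt_nonneg _) hDX 2
    · exact hN0 d₁ hd₁
    · refine le_trans (hNX d₁ hd₁) ?_
      calc X ^ (2 * q) ≤ X ^ ((1 : ℝ) / 2 * (1 / 8)) :=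
            Real.rpow_le_rpow_of_exponent_le hX1 (by linarith)
        _ = (X ^ ((1 : ℝ) / 2)) ^ ((1 : ℝ) / 8) := Real.rpow_mul hX0.le _ _
        _ ≤ ((2 : ℝ) ^ i) ^ ((1 : ℝ) / 8) :=
            Real.rpow_le_rpow (Real.rpow_nonneg hX0.le _) hDX (by norm_num)
    · intro d hd
      obtain ⟨h1, h2, -⟩ := hmem d hd
      have h3 := hlogb d (hd1 d h1)
      rw [h2] at h3
      exact ⟨h3.1, h3.2.le⟩
    · intro d hd d' hd'
      have h1 := (hmem d hd).2.2.2.2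
      have h2 := (hmem d' hd').2.2.2.2
      have hL : 0 < ((2 : ℝ) ^ i) ^ (16 * q) := Real.rpow_pos_of_pos hDp _
      have h3 := Int.abs_sub_lt_one_of_floor_eq_floor (h1.trans h2.symm)
      rw [← sub_div, abs_div, abs_of_pos hL, div_lt_one hL] at h3
      exact h3.le
    · intro d hd
      obtain ⟨h1, h2, h3, h4, -⟩ := hmem d hd
      have h5 := hlogb (y d) (hy d h1)
      rw [h3] at h5
      exact ⟨x d, y d, hx d h1, h5.1, h5.2, hcop d h1, by rw [hN d h1, h4]⟩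
  -- the image
  have himg : S.image f ⊆ (Finset.range (⌊c * X ^ (q / 2)⌋₊ + 1)) ×ˢ
      (Finset.range (⌊A * c * X ^ (q / 2)⌋₊ + 1)) ×ˢ
      (Finset.Icc (-⌊X ^ (2 * q)⌋) ⌊X ^ (2 * q)⌋) ×ˢ
      (Finset.Icc (0 : ℤ) ⌊2 * X ^ (1 - 16 * q)⌋) := by
    intro a ha
    rw [Finset.mem_image] at ha
    obtain ⟨d, hd, rfl⟩ := ha
    obtain ⟨hS1, hS2, -⟩ := hS d hd
    have hD := hlogb d (hd1 d hd)
    have hV := hlogb (y d) (hy d hd)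
    simp only [f, Finset.mem_product, Finset.mem_range, Finset.mem_Icc]
    refine ⟨?_, ?_, ⟨?_, ?_⟩, ?_, ?_⟩
    · apply Nat.lt_succ_of_le
      apply Nat.le_floor
      have h1 : (Nat.log 2 d.toNat : ℝ) * Real.log 2 ≤ Real.log X := by
        rw [← Real.log_pow]
        exact Real.log_le_log (by positivity) (by linarith)
      have h2 := le_trans h1 hlog'
      exact le_of_mul_le_mul_right h2 hl2
    · apply Nat.lt_succ_of_le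
      apply Nat.le_floor
      have h1 : (Nat.log 2 (y d).toNat : ℝ) * Real.log 2 ≤ A * Real.log X := by
        rw [← Real.log_pow, ← Real.log_pow]
        exact Real.log_le_log (by positivity) (le_trans hV.1 (hyA d hd))
      have h2 : (Nat.log 2 (y d).toNat : ℝ) * Real.log 2 ≤ (A * c * X ^ (q / 2)) * Real.log 2 := by
        calc _ ≤ A * Real.log X := h1
          _ ≤ A * (c * X ^ (q / 2) * Real.log 2) := mul_le_mul_of_nonneg_left hlog' (by linarith)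
          _ = _ := by ring
      exact le_of_mul_le_mul_right h2 hl2
    · have h1 := (abs_le.1 (hNX d hd)).1
      have h2 : -N d ≤ ⌊X ^ (2 * q)⌋ := by
        apply Int.le_floor.2
        push_cast
        linarith
      linarith
    · apply Int.le_floor.2
      exact (abs_le.1 (hNX d hd)).2
    · apply Int.floor_nonneg.2
      have : (0 : ℝ) ≤ d := by
        have := hd1 d hd
        exact_mod_cast (by omega : (0 : ℤ) ≤ d)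
      positivity
    · apply Int.floor_le_floor
      obtain ⟨D, hDD⟩ : ∃ D : ℝ, D = 2 ^ (Nat.log 2 d.toNat) := ⟨_, rfl⟩
      rw [← hDD] at hD ⊢
      have hDp : 0 < D := by rw [hDD]; positivity
      have hL : 0 < D ^ (16 * q) := Real.rpow_pos_of_pos hDp _
      rw [div_le_iff₀ hL]
      have h1 : D = D ^ (1 - 16 * q) * D ^ (16 * q) := by
        rw [← Real.rpow_add hDp, sub_add_cancel, Real.rpow_one]
      calc (d : ℝ) ≤ 2 * D := hD.2.le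
        _ = 2 * D ^ (1 - 16 * q) * D ^ (16 * q) := by rw [mul_assoc, ← h1]
        _ ≤ 2 * X ^ (1 - 16 * q) * D ^ (16 * q) := by
            apply mul_le_mul_of_nonneg_right _ hL.le
            apply mul_le_mul_of_nonneg_left _ (by norm_num)
            exact Real.rpow_le_rpow hDp.le (by linarith [hD.1]) (by linarith)
  have hcard := Finset.card_le_mul_card_image S _ hfib
  have hc2 := Finset.card_le_card himg
  rw [Finset.card_product, Finset.card_product, Finset.card_product, Finset.card_range,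
    Finset.card_range, Int.card_Icc, Int.card_Icc] at hc2
  have b1 : ((⌊c * X ^ (q / 2)⌋₊ + 1 : ℕ) : ℝ) ≤ (c + 1) * X ^ (q / 2) := by
    refine le_trans ?_ (add_one_le hX1 (by positivity))
    push_cast
    linarith [Nat.floor_le (a := c * X ^ (q / 2)) (by positivity)]
  have b2 : ((⌊A * c * X ^ (q / 2)⌋₊ + 1 : ℕ) : ℝ) ≤ (A * c + 1) * X ^ (q / 2) := by
    refine le_trans ?_ (add_one_le hX1 (by positivity))
    push_cast
    linarith [Nat.floor_le (a := A * c * X ^ (q / 2)) (by positivity)]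
  have b3 : (((⌊X ^ (2 * q)⌋ + 1 - -⌊X ^ (2 * q)⌋).toNat : ℕ) : ℝ) ≤ 3 * X ^ (2 * q) := by
    have h0 : 0 ≤ ⌊X ^ (2 * q)⌋ := Int.floor_nonneg.2 (by positivity)
    have h1 : (((⌊X ^ (2 * q)⌋ + 1 - -⌊X ^ (2 * q)⌋).toNat : ℕ) : ℝ) =
        2 * (⌊X ^ (2 * q)⌋ : ℝ) + 1 := by
      have h2 : (((⌊X ^ (2 * q)⌋ + 1 - -⌊X ^ (2 * q)⌋).toNat : ℕ) : ℤ) =
          2 * ⌊X ^ (2 * q)⌋ + 1 := by omega
      exact_mod_cast h2
    rw [h1]
    have h3 := Int.floor_le (X ^ (2 * q))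
    have h4 : 1 ≤ X ^ (2 * q) := Real.one_le_rpow hX1 (by positivity)
    linarith
  have b4 : (((⌊2 * X ^ (1 - 16 * q)⌋ + 1 - 0).toNat : ℕ) : ℝ) ≤ 3 * X ^ (1 - 16 * q) := by
    have h0 : 0 ≤ ⌊2 * X ^ (1 - 16 * q)⌋ := Int.floor_nonneg.2 (by positivity)
    have h1 : (((⌊2 * X ^ (1 - 16 * q)⌋ + 1 - 0).toNat : ℕ) : ℝ) =
        (⌊2 * X ^ (1 - 16 * q)⌋ : ℝ) + 1 := by
      have h2 : (((⌊2 * X ^ (1 - 16 * q)⌋ + 1 - 0).toNat : ℕ) : ℤ) =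
          ⌊2 * X ^ (1 - 16 * q)⌋ + 1 := by omega
      exact_mod_cast h2
    rw [h1]
    have h3 := Int.floor_le (2 * X ^ (1 - 16 * q))
    have h4 : 1 ≤ X ^ (1 - 16 * q) := Real.one_le_rpow hX1 (by linarith)
    linarith
  have b0 : ((⌊Cc * X ^ (9 * q)⌋₊ : ℕ) : ℝ) ≤ Cc * X ^ (9 * q) := Nat.floor_le (by positivity)
  have h1 : (S.card : ℝ) ≤ ((⌊Cc * X ^ (9 * q)⌋₊ : ℕ) : ℝ) *
      (((⌊c * X ^ (q / 2)⌋₊ + 1 : ℕ) : ℝ) * (((⌊A * c * X ^ (q / 2)⌋₊ + 1 : ℕ) : ℝ) *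
      ((((⌊X ^ (2 * q)⌋ + 1 - -⌊X ^ (2 * q)⌋).toNat : ℕ) : ℝ) *
      (((⌊2 * X ^ (1 - 16 * q)⌋ + 1 - 0).toNat : ℕ) : ℝ)))) := by
    have := le_trans hcard (Nat.mul_le_mul_left _ hc2)
    exact_mod_cast this
  refine le_trans h1 ?_
  have p1 : (0 : ℝ) ≤ X ^ (q / 2) := by positivity
  have p2 : (0 : ℝ) ≤ X ^ (2 * q) := by positivity
  have p3 : (0 : ℝ) ≤ X ^ (1 - 16 * q) := by positivity
  have p4 : (0 : ℝ) ≤ X ^ (9 * q) := by positivity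
  calc _ ≤ (Cc * X ^ (9 * q)) * (((c + 1) * X ^ (q / 2)) * (((A * c + 1) * X ^ (q / 2)) *
        ((3 * X ^ (2 * q)) * (3 * X ^ (1 - 16 * q))))) := by
        gcongr
    _ = (Cc * (c + 1) * (A * c + 1) * 3 * 3) * (X ^ (9 * q) * X ^ (q / 2) * X ^ (q / 2) *
        X ^ (2 * q) * X ^ (1 - 16 * q)) := by ring
    _ = (Cc * (c + 1) * (A * c + 1) * 3 * 3) * X ^ (1 - 4 * q) := by
        rw [← Real.rpow_add hX0, ← Real.rpow_add hX0, ← Real.rpow_add hX0, ← Real.rpow_add hX0]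
        congr 2
        ring
    _ = _ := by rw [hc]

/-- The result. -/
theorem t (hI : StmtPI) : StmtPFIN := by
  intro A hA
  obtain ⟨D₀, Cc, hD₀, hCc, hI⟩ := hI A hA (2 * (4 * A + 1) ^ 2) rfl
  obtain ⟨m, hm⟩ : ∃ m : ℕ, m = 2 * (4 * A + 1) ^ 2 := ⟨_, rfl⟩
  rw [← hm] at hI
  obtain ⟨q, hq⟩ : ∃ q : ℝ, q = 1 / (128 * (m : ℝ)) := ⟨_, rfl⟩
  have hmr : (m : ℝ) = 2 * (4 * (A : ℝ) + 1) ^ 2 := by rw [hm]; push_cast; ring
  have hm1 : 1 ≤ (m : ℝ) := by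
    rw [hmr]
    have : (0 : ℝ) ≤ A := Nat.cast_nonneg A
    nlinarith
  have hq0 : 0 < q := by rw [hq]; positivity
  have hq1 : q ≤ 1 / 128 := by
    rw [hq]
    apply one_div_le_one_div_of_le (by norm_num)
    linarith
  have e2 : 1 / (128 * (4 * (A : ℝ) + 1) ^ 2) = 2 * q := by
    rw [hq, hmr]; field_simp
  have e4 : 1 / (64 * (4 * (A : ℝ) + 1) ^ 2) = 4 * q := by
    rw [hq, hmr]; field_simp; norm_num
  rw [e2, e4]
  obtain ⟨M₁, hM₁⟩ : ∃ M₁ : ℝ, M₁ = Cc * (2 / (q * Real.log 2) + 1) *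
    (A * (2 / (q * Real.log 2)) + 1) * 3 * 3 := ⟨_, rfl⟩
  have hl2 : 0 < Real.log 2 := Real.log_pos (by norm_num)
  have hM0 : 0 ≤ M₁ := by rw [hM₁]; positivity
  refine ⟨D₀ ^ 2 + 2 + M₁, fun X hX => ?_⟩
  have hX0 : 0 < X := by linarith
  have hpow : 1 ≤ X ^ (1 - 4 * q) := Real.one_le_rpow hX (by linarith)
  -- the set as a finset
  classical
  obtain ⟨P, hP⟩ : ∃ P : ℤ → Prop, P = fun d => ∃ x y : ℤ, 1 ≤ y ∧ (y : ℝ) ≤ X ^ A ∧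
    x ^ 2 ≠ d * y ^ 2 ∧ |((x ^ 2 - d * y ^ 2 : ℤ) : ℝ)| ≤ X ^ (2 * q) := ⟨_, rfl⟩
  have hset : {d : ℤ | 1 ≤ d ∧ (d : ℝ) ≤ X ∧ ∃ x y : ℤ, 1 ≤ y ∧ (y : ℝ) ≤ X ^ A ∧
      x ^ 2 ≠ d * y ^ 2 ∧ |((x ^ 2 - d * y ^ 2 : ℤ) : ℝ)| ≤ X ^ (2 * q)} =
      ((Finset.Icc (1 : ℤ) ⌊X⌋).filter P : Finset ℤ) := by
    ext d
    simp only [Set.mem_ofPred_eq, Finset.coe_filter, Finset.mem_Icc, Int.le_floor, hP, and_assoc]
  rw [hset, Set.ncard_coe_finset]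
  by_cases hXD : D₀ ^ 2 ≤ X
  · have hsplit : (Finset.Icc (1 : ℤ) ⌊X⌋).filter P ⊆
        Finset.Icc (1 : ℤ) ⌊2 * X ^ ((1 : ℝ) / 2)⌋ ∪
        (Finset.Icc (1 : ℤ) ⌊X⌋).filter (fun d => P d ∧ 2 * X ^ ((1 : ℝ) / 2) < d) := by
      intro d hd
      rw [Finset.mem_filter, Finset.mem_Icc] at hd
      rw [Finset.mem_union, Finset.mem_filter, Finset.mem_Icc, Finset.mem_Icc]
      by_cases h : 2 * X ^ ((1 : ℝ) / 2) < d
      · exact Or.inr ⟨hd.1, hd.2, h⟩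
      · exact Or.inl ⟨hd.1.1, Int.le_floor.2 (not_lt.1 h)⟩
    have h1 := le_trans (Finset.card_le_card hsplit) (Finset.card_union_le _ _)
    have h2 := main A hA m hm D₀ Cc hD₀ hCc hI q hq X hXD
      ((Finset.Icc (1 : ℤ) ⌊X⌋).filter (fun d => P d ∧ 2 * X ^ ((1 : ℝ) / 2) < d)) (by
        intro d hd
        rw [Finset.mem_filter, Finset.mem_Icc, Int.le_floor, hP] at hd
        exact ⟨hd.2.2, hd.1.2, hd.2.1⟩)
    rw [← hM₁] at h2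
    have h3 : ((Finset.Icc (1 : ℤ) ⌊2 * X ^ ((1 : ℝ) / 2)⌋).card : ℝ) ≤ 2 * X ^ (1 - 4 * q) := by
      rw [Int.card_Icc]
      have h0 : 0 ≤ ⌊2 * X ^ ((1 : ℝ) / 2)⌋ := Int.floor_nonneg.2 (by positivity)
      have h4 : (((⌊2 * X ^ ((1 : ℝ) / 2)⌋ + 1 - 1).toNat : ℕ) : ℝ) =
          (⌊2 * X ^ ((1 : ℝ) / 2)⌋ : ℝ) := by
        have h5 : (((⌊2 * X ^ ((1 : ℝ) / 2)⌋ + 1 - 1).toNat : ℕ) : ℤ) =
            ⌊2 * X ^ ((1 : ℝ) / 2)⌋ := by omega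
        exact_mod_cast h5
      rw [h4]
      refine le_trans (Int.floor_le _) ?_
      apply mul_le_mul_of_nonneg_left _ (by norm_num)
      exact Real.rpow_le_rpow_of_exponent_le hX (by linarith)
    have h4 : ((((Finset.Icc (1 : ℤ) ⌊X⌋).filter P).card : ℕ) : ℝ) ≤
        ((Finset.Icc (1 : ℤ) ⌊2 * X ^ ((1 : ℝ) / 2)⌋).card : ℝ) +
        (((Finset.Icc (1 : ℤ) ⌊X⌋).filter
          (fun d => P d ∧ 2 * X ^ ((1 : ℝ) / 2) < d)).card : ℝ) := by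
      exact_mod_cast h1
    nlinarith [sq_nonneg D₀]
  · have h1 : ((((Finset.Icc (1 : ℤ) ⌊X⌋).filter P).card : ℕ) : ℝ) ≤ X := by
      have h2 := Finset.card_filter_le (Finset.Icc (1 : ℤ) ⌊X⌋) P
      rw [Int.card_Icc] at h2
      have h0 : 0 ≤ ⌊X⌋ := Int.floor_nonneg.2 hX0.le
      have h5 : (((⌊X⌋ + 1 - 1).toNat : ℕ) : ℤ) = ⌊X⌋ := by omega
      have h6 : ((((Finset.Icc (1 : ℤ) ⌊X⌋).filter P).card : ℕ) : ℤ) ≤ ⌊X⌋ := by omega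
      refine le_trans ?_ (Int.floor_le X)
      exact_mod_cast h6
    push Not at hXD
    have h3 : X ≤ (D₀ ^ 2 + 2 + M₁) * 1 := by linarith
    refine le_trans h1 (le_trans h3 ?_)
    exact mul_le_mul_of_nonneg_left hpow (by positivity)

end Pool.Agent.W461.PL
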